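import Pool.Agent.X40.PQB

/-!
`B(2 q^b) = 2` for all odd primes `q` and all `b ≥ 1`.

Method: a product of distinct `Φ_d`, `d ∣ 2 q^b`, is `G(x) P(x^q)` with `G ∣ x^(2q) - 1` and `P` a product
of `Φ_d`, `d ∣ 2 q^(b-1)`, `q ∣ d`. In every residue class modulo `q` the absolute values of the
coefficients of `G` have a sum at most `2`, and at most `1` if `G` is a product of some of `Φ_q`, `Φ_{2q}`.
-/

set_option autoImplicit false

open Pool.Agent.X40 in
/-- For every odd prime `q` and every `b ≥ 1` the largest height of a divisor of `X ^ (2 q ^ b) - 1` in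
`ℤ[X]` is `2`. -/
theorem Pool.Agent.Results.MP_0523aa_nt.TwoQPower.result (q : ℕ) (hq : q.Prime) (h2 : q ≠ 2) (b : ℕ)
    (hb : 1 ≤ b) : B (2 * q ^ b) = 2 := by
  obtain ⟨c, rfl⟩ : ∃ c, b = c + 1 := ⟨b - 1, by omega⟩
  have h : 2 < q := lt_of_le_of_ne hq.two_le (Ne.symm h2)
  rw [B_eq Nat.prime_two hq h, Bq_two hq h]
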